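import Pool.Agent.helper60.MW.Spec

set_option autoImplicit false

namespace Pool.Agent.MW

open MeasureTheory Set Pool.Agent.helper17.Worm

theorem INF_aux (hINS : INS_stmt) (ι : Type) (ℓ : ℝ) (A : Set ℂ) (p q : ι → ℂ) (hA : Cv ℓ A)
    (hp : ∀ i, p i ∈ A) (s : Finset ι) :
    Cv (ℓ + 2 * ∑ i ∈ s, ‖q i - p i‖) (A ∪ q '' (s : Set ι)) := by
  classical
  induction s using Finset.induction_on with
  | empty => simpa using hA
  | insert i s hi ih =>
    have h1 := hINS _ _ (p i) (q i) ih (Or.inl (hp i))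
    have e1 : ℓ + 2 * ∑ j ∈ s, ‖q j - p j‖ + 2 * ‖q i - p i‖ =
        ℓ + 2 * ∑ j ∈ insert i s, ‖q j - p j‖ := by
      rw [Finset.sum_insert hi]
      ring
    have e2 : insert (q i) (A ∪ q '' (s : Set ι)) = A ∪ q '' ((insert i s : Finset ι) : Set ι) := by
      rw [Finset.coe_insert, image_insert_eq, insert_eq, insert_eq, union_left_comm]
    rw [e1, e2] at h1
    exact h1

theorem INF (hINS : INS_stmt) : INF_stmt := by
  intro ι _ ℓ A p q hA hp
  have h := INF_aux hINS ι ℓ A p q hA hp Finset.univ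
  rw [Finset.coe_univ, image_univ] at h
  exact h

end Pool.Agent.MW
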