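import Pool.Agent.helper37.MW.Spec

set_option autoImplicit false

namespace Pool.Agent.helper37.MW

open Finset Pool.Agent.NK

lemma GWS_nn (p i : ℕ) (ρ : ℝ) (h0 : 0 ≤ ρ) (h1 : ρ ≤ 1) : 0 ≤ mu p i ρ := by
  unfold mu
  have : 0 ≤ 1 - ρ := by linarith
  positivity

lemma GWS_tot (p : ℕ) (S : Finset ℕ) (ρ : ℝ) (h0 : 0 ≤ ρ) (h1 : ρ ≤ 1)
    (hS : ∀ i ∈ S, 1 ≤ i ∧ i ≤ p) : ∑ i ∈ S, mu p i ρ ≤ 1 := by
  have h2 : ∑ i ∈ range (p + 1), mu p i ρ = 1 := by
    have h3 := add_pow ρ (1 - ρ) p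
    have h4 : ρ + (1 - ρ) = 1 := by ring
    rw [h4, one_pow] at h3
    rw [h3]
    refine sum_congr rfl ?_
    intro i _
    unfold mu
    ring
  rw [← h2]
  refine sum_le_sum_of_subset_of_nonneg ?_ ?_
  · intro i hi
    rw [mem_range]
    have := (hS i hi).2
    omega
  · intro i _ _
    exact GWS_nn p i ρ h0 h1

lemma GWS_big (h1 : MPB_stmt) (h2 : MPS_stmt) (p i : ℕ) (ρ : ℝ) (hρ : 1 / 3 ≤ ρ)
    (hρ' : ρ ≤ 0.34) (hi : 3 ≤ i) (hip : i ≤ p) : mu p i ρ ≤ 0.28 := by
  by_cases h : p ≤ 7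
  · exact (h2 ρ hρ hρ').2.2.2.2 p i hi hip h
  · exact (h1 p i ρ hρ hρ').2 (by omega)

theorem GWS (h1 : MPB_stmt) (h2 : MPS_stmt) : GWS_stmt := by
  intro p S ρ hp hρ hρ' hS2 hS
  have h0 : 0 ≤ ρ := by linarith
  have h01 : ρ ≤ 1 := by norm_num at hρ' ⊢; linarith
  obtain ⟨m31, m32, m41, m42, m3⟩ := h2 ρ hρ hρ'
  have hbig : ∀ i, 3 ≤ i → i ≤ p → mu p i ρ ≤ 0.28 := fun i hi hip =>
    GWS_big h1 h2 p i ρ hρ hρ' hi hip
  have hne : S.Nonempty := card_pos.mp (by omega)
  obtain ⟨s, hs⟩ : ∃ s, s = S.max' hne := ⟨_, rfl⟩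
  have hsS : s ∈ S := by
    rw [hs]
    exact max'_mem S hne
  have hsmax : ∀ i ∈ S, i ≤ s := by
    intro i hi
    rw [hs]
    exact le_max' S i hi
  obtain ⟨S', hS'⟩ : ∃ S', S' = S.erase s := ⟨_, rfl⟩
  have hcard' : #S' = #S - 1 := by
    rw [hS']
    exact card_erase_of_mem hsS
  have hne' : S'.Nonempty := card_pos.mp (by omega)
  obtain ⟨t, ht⟩ : ∃ t, t = S'.max' hne' := ⟨_, rfl⟩
  have htS' : t ∈ S' := by
    rw [ht]
    exact max'_mem S' hne'
  have htmax : ∀ i ∈ S', i ≤ t := by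
    intro i hi
    rw [ht]
    exact le_max' S' i hi
  have htS : t ∈ S := by
    rw [hS'] at htS'
    exact mem_of_mem_erase htS'
  have hts : t < s := by
    have h3 := hsmax t htS
    have h4 : t ≠ s := by
      rw [hS'] at htS'
      exact ne_of_mem_erase htS'
    omega
  obtain ⟨S'', hS''⟩ : ∃ S'', S'' = S'.erase t := ⟨_, rfl⟩
  have hsum : ∀ f : ℕ → ℝ, ∑ i ∈ S, f i = f s + (f t + ∑ i ∈ S'', f i) := by
    intro f
    rw [hS'', add_sum_erase S' f htS', hS', add_sum_erase S f hsS]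
  have hmem'' : ∀ i ∈ S'', i ∈ S ∧ i < t := by
    intro i hi
    rw [hS''] at hi
    have h3 := mem_of_mem_erase hi
    have h4 := ne_of_mem_erase hi
    have h5 := htmax i h3
    refine ⟨?_, by omega⟩
    rw [hS'] at h3
    exact mem_of_mem_erase h3
  have hnn : ∀ i, 0 ≤ mu p i ρ := fun i => GWS_nn p i ρ h0 h01
  have htot := GWS_tot p S ρ h0 h01 hS
  rw [hsum] at htot
  have hrest : ∑ i ∈ S'', mu p i ρ * (0.52 : ℝ) ^ (2 * #{l ∈ S | i < l}) ≤
      0.52 ^ 4 * ∑ i ∈ S'', mu p i ρ := by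
    rw [mul_sum]
    refine sum_le_sum ?_
    intro i hi
    obtain ⟨hiS, hit⟩ := hmem'' i hi
    rw [mul_comm]
    refine mul_le_mul_of_nonneg_right ?_ (hnn i)
    refine pow_le_pow_of_le_one (by norm_num) (by norm_num) ?_
    have h3 : ({s, t} : Finset ℕ) ⊆ {l ∈ S | i < l} := by
      intro l hl
      rw [mem_insert, mem_singleton] at hl
      rw [mem_filter]
      rcases hl with hl | hl
      · rw [hl]
        exact ⟨hsS, by omega⟩
      · rw [hl]
        exact ⟨htS, by omega⟩
    have h4 := card_le_card h3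
    rw [card_pair (by omega)] at h4
    omega
  have hfs : mu p s ρ * (0.52 : ℝ) ^ (2 * #{l ∈ S | s < l}) ≤ mu p s ρ := by
    have h3 : (0.52 : ℝ) ^ (2 * #{l ∈ S | s < l}) ≤ 1 := pow_le_one₀ (by norm_num) (by norm_num)
    have h4 := mul_le_mul_of_nonneg_left h3 (hnn s)
    linarith
  have hft : mu p t ρ * (0.52 : ℝ) ^ (2 * #{l ∈ S | t < l}) ≤ 0.52 ^ 2 * mu p t ρ := by
    rw [mul_comm]
    refine mul_le_mul_of_nonneg_right ?_ (hnn t)
    refine pow_le_pow_of_le_one (by norm_num) (by norm_num) ?_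
    have h3 : 0 < #{l ∈ S | t < l} := card_pos.mpr ⟨s, mem_filter.mpr ⟨hsS, hts⟩⟩
    omega
  rw [hsum]
  have ht1 := (hS t htS).1
  have hsp := (hS s hsS).2
  have hs0 := hnn s
  have ht0 := hnn t
  obtain ⟨r, hr⟩ : ∃ r, r = ∑ i ∈ S'', mu p i ρ := ⟨_, rfl⟩
  rw [← hr] at htot hrest
  rcases S''.eq_empty_or_nonempty with he | ⟨i, hi⟩
  · rw [he, sum_empty] at hr ⊢
    have hr' : mu p s ρ * (0.52 : ℝ) ^ (2 * #{l ∈ S | s < l}) +
        (mu p t ρ * (0.52 : ℝ) ^ (2 * #{l ∈ S | t < l}) + 0) ≤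
        mu p s ρ + 0.52 ^ 2 * mu p t ρ := by linarith
    refine hr'.trans ?_
    by_cases h5 : 5 ≤ p
    · have h6 := (h1 p s ρ hρ hρ').1 h5
      have h7 := (h1 p t ρ hρ hρ').1 h5
      norm_num at h6 h7 ⊢
      linarith
    · have hp34 : p = 3 ∨ p = 4 := by omega
      rcases hp34 with hp3 | hp4
      · subst hp3
        have ht12 : t = 1 ∨ t = 2 := by omega
        have h8 : mu 3 t ρ ≤ 0.4445 := by
          rcases ht12 with h | h
          · rw [h]
            exact m31
          · rw [h]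
            norm_num at m32 ⊢
            linarith
        have h9 : mu 3 s ρ ≤ 0.28 := by
          have hs23 : s = 2 ∨ s = 3 := by omega
          rcases hs23 with h | h
          · rw [h]
            norm_num at m32 ⊢
            linarith
          · exact hbig s (by omega) (by omega)
        norm_num at h8 h9 ⊢
        linarith
      · subst hp4
        have h8 : mu 4 t ρ ≤ 0.41 := by
          have ht12 : t = 1 ∨ t = 2 ∨ t = 3 := by omega
          rcases ht12 with h | h | h
          · rw [h]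
            exact m41
          · rw [h]
            norm_num at m42 ⊢
            linarith
          · have h10 := hbig t (by omega) (by omega)
            norm_num at h10 ⊢
            linarith
        have h9 : mu 4 s ρ ≤ 0.31 := by
          have hs23 : s = 2 ∨ 3 ≤ s := by omega
          rcases hs23 with h | h
          · rw [h]
            exact m42
          · have h10 := hbig s (by omega) (by omega)
            norm_num at h10 ⊢
            linarith
        norm_num at h8 h9 ⊢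
        linarith
  · obtain ⟨hiS, hit⟩ := hmem'' i hi
    have hi1 := (hS i hiS).1
    have h9 := hbig s (by omega) hsp
    have h8 : mu p t ρ ≤ 0.333 := by
      by_cases h5 : 5 ≤ p
      · exact (h1 p t ρ hρ hρ').1 h5
      · have hp34 : p = 3 ∨ p = 4 := by omega
        rcases hp34 with hp3 | hp4
        · subst hp3
          have h10 : t = 2 := by omega
          rw [h10]
          norm_num at m32 ⊢
          linarith
        · subst hp4
          have h10 : t = 2 ∨ 3 ≤ t := by omega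
          rcases h10 with h | h
          · rw [h]
            norm_num at m42 ⊢
            linarith
          · have h11 := hbig t h (by omega)
            norm_num at h11 ⊢
            linarith
    norm_num at h8 h9 hrest hft ⊢
    linarith

end Pool.Agent.helper37.MW
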